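import Pool.Agent.K9h45.PL.Fin

/-!
# Mean squares of the phases of a pattern followed by the spacings of the zeros

Assume the Riemann hypothesis; `γ̃_n = γ_n log γ_n / 2π`, `d_j = γ̃_{j+1} - γ̃_j`.  For a sequence `w`
of complex numbers of modulus `1` let `V(w, R, N)` be the mean over `n ≤ N` of
`|w_n + … + w_{n+R-1}|² / R`.

If almost all spacings follow a pattern modulo `s > 1`, `d_j ≈ a_j (mod s)`, for an ARBITRARY real
sequence `a`, then the phases of the pattern, `e(k (a_0 + … + a_{n-1}) / s)`, have the asymptotic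
mean squares `k / s` for all `1 ≤ k < s` (first `N → ∞`, then `R → ∞`).

With `a = d`, `s = 1 / θ`, `k = 1` this says that the numbers `e(θ γ̃_n)`, `0 < θ < 1`, have the
asymptotic mean square `θ` over blocks of consecutive zeros.

Idea of the proof.  Montgomery's theorem gives the mean square of the sums over the zeros in windows
of the line.  A deterministic inequality compares the windows of `R` consecutive indices with
windows of the line: for points of unit mean density, the fluctuation `n - γ̃_n` enters in the mean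
square only through the pair sums at frequencies near `0`, which are controlled by the form factor
near `0`.
-/

set_option autoImplicit false

open Filter Topology

namespace Pool.Agent.Results.MP_f0209c_nt.ConsecutiveZerosLaw

/-- multiplicity of `s` as a zero of the Riemann zeta function (order of vanishing at `s`) -/
noncomputable def zmult (s : ℂ) : ℕ := analyticOrderNatAt riemannZeta s

/-- the number of nontrivial zeros of `ζ` with ordinate in `(0, t]`, with multiplicity -/
noncomputable def NZ (t : ℝ) : ℕ :=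
  ∑ᶠ s ∈ {s : ℂ | riemannZeta s = 0 ∧ 0 < s.re ∧ s.re < 1 ∧ 0 < s.im ∧ s.im ≤ t}, zmult s

/-- for `n ≥ 1`: the `n`-th positive ordinate `γ n` of a nontrivial zero of `ζ`, the ordinates being
listed in nondecreasing order and repeated according to multiplicity -/
noncomputable def γ (n : ℕ) : ℝ := sInf {t : ℝ | n ≤ NZ t}

/-- the normalised ordinates `γ_n log γ_n / 2π` -/
noncomputable def γt (n : ℕ) : ℝ := γ n * Real.log (γ n) / (2 * Real.pi)

/-- the normalised spacings -/
noncomputable def d (j : ℕ) : ℝ := γt (j + 1) - γt j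

/-- `e(x) = exp(2πix)` -/
noncomputable def e (x : ℝ) : ℂ := Complex.exp ((2 * Real.pi * x : ℝ) * Complex.I)

/-- the mean over `1 ≤ n ≤ N` of `|w_n + w_{n+1} + … + w_{n+R-1}|² / R` -/
noncomputable def V (w : ℕ → ℂ) (R N : ℕ) : ℝ :=
  (∑ n ∈ Finset.Icc 1 N, ‖∑ i ∈ Finset.range R, w (n + i)‖ ^ 2) / (N * R)

/-- `V(w, R, N)` tends to `c`, first `N → ∞` along `l`, then `R → ∞` -/
def MeanSq (l : Filter ℕ) (w : ℕ → ℂ) (c : ℝ) : Prop :=
  ∀ ε : ℝ, 0 < ε → ∃ R₀ : ℕ, ∀ R : ℕ, R₀ ≤ R → ∀ᶠ N in l, |V w R N - c| < ε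

/-- the phases `e(θ (a_0 + … + a_{n-1}))` of the pattern `a` at the frequency `θ` -/
noncomputable def P (θ : ℝ) (a : ℕ → ℝ) (n : ℕ) : ℂ := e (θ * ∑ j ∈ Finset.range n, a j)

/-- the set of the `j ≥ 1` with the property `B` has density zero along `l` -/
def Null (l : Filter ℕ) (B : ℕ → Prop) : Prop :=
  Tendsto (fun N : ℕ => ({j : ℕ | 1 ≤ j ∧ j ≤ N ∧ B j}.ncard : ℝ) / N) l (𝓝 0)

/-- almost all spacings, along `l`, are near `a_j + s ℤ` -/
def Follows (l : Filter ℕ) (s : ℝ) (a : ℕ → ℝ) : Prop :=
  ∀ ε : ℝ, 0 < ε → Null l (fun j => ∀ m : ℤ, ε ≤ |d j - (a j + s * m)|)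

/-- On the Riemann hypothesis: if almost all spacings follow the pattern `a` modulo `s` along `l`,
then the phases of the pattern have the asymptotic mean squares `k / s` for all integers
`1 ≤ k < s`. -/
theorem result (RH : RiemannHypothesis) (l : Filter ℕ) (hl : l ≤ atTop) (s : ℝ) (a : ℕ → ℝ)
    (hF : Follows l s a) (k : ℕ) (hk : 1 ≤ k) (hks : k < s) :
    MeanSq l (P (k / s) a) (k / s) :=
  Pool.Agent.K9h45.PL.main2 RH hl hF hk hks

end Pool.Agent.Results.MP_f0209c_nt.ConsecutiveZerosLaw
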