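import Pool.Agent.K9h45.PL.Fin

/-!
# The normalised spacings of the zeta zeros do not follow a polynomial pattern modulo `s > 1`

Assume the Riemann hypothesis.  For every real polynomial `Q` and every `s > 1` a positive
proportion of the normalised spacings `d_j` stays away from `Q(j) + s ℤ`.

Idea of the proof.  Let `θ = 1 / s < 1`.  If almost all spacings, for infinitely many `N`, were near
`Q(j) + s ℤ`, then the sums of `e(θ γ_n log γ_n / 2π)` over `R` consecutive zeros would have nearly
the same absolute values as the sums of the phases `w_n = e(θ (Q(0) + … + Q(n - 1)))`.  The mean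
square of the former is `θ R` (law for consecutive zeros, from Montgomery's theorem on the pair
correlation and a comparison of windows of consecutive indices with windows of the line).  If
`θ Q` has an irrational coefficient other than the constant one, then all correlations of `w`
vanish (Weyl) and the mean square of the latter is `R`.  Otherwise `Q(j)` is periodic modulo `s`,
and periodic patterns are excluded by the starting results.
-/

set_option autoImplicit false

open Filter

namespace Pool.Agent.Results.MP_f0209c_nt.PolynomialPatterns

/-- multiplicity of `s` as a zero of the Riemann zeta function (order of vanishing at `s`) -/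
noncomputable def zmult (s : ℂ) : ℕ := analyticOrderNatAt riemannZeta s

/-- the number of nontrivial zeros of `ζ` with ordinate in `(0, t]`, with multiplicity -/
noncomputable def NZ (t : ℝ) : ℕ :=
  ∑ᶠ s ∈ {s : ℂ | riemannZeta s = 0 ∧ 0 < s.re ∧ s.re < 1 ∧ 0 < s.im ∧ s.im ≤ t}, zmult s

/-- for `n ≥ 1`: the `n`-th positive ordinate `γ n` of a nontrivial zero of `ζ`, the ordinates being
listed in nondecreasing order and repeated according to multiplicity -/
noncomputable def γ (n : ℕ) : ℝ := sInf {t : ℝ | n ≤ NZ t}

/-- the normalised ordinates `γ_n log γ_n / 2π` -/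
noncomputable def γt (n : ℕ) : ℝ := γ n * Real.log (γ n) / (2 * Real.pi)

/-- the normalised spacings -/
noncomputable def d (j : ℕ) : ℝ := γt (j + 1) - γt j

/-- On the Riemann hypothesis: for every real polynomial `Q` and every `s > 1` there is `ε > 0` such
that for all large `N` at least `ε N` of the indices `1 ≤ j ≤ N` satisfy
`|d_j - (Q(j) + s m)| ≥ ε` for all integers `m`. -/
theorem result (RH : RiemannHypothesis) (s : ℝ) (hs : 1 < s) (Q : Polynomial ℝ) :
    ∃ ε : ℝ, 0 < ε ∧ ∀ᶠ N : ℕ in atTop,
      ε * N ≤ ({j : ℕ | 1 ≤ j ∧ j ≤ N ∧
        ∀ m : ℤ, ε ≤ |d j - (Q.eval (j : ℝ) + s * m)|}.ncard : ℝ) :=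
  Pool.Agent.K9h45.PL.main5 RH hs Q

end Pool.Agent.Results.MP_f0209c_nt.PolynomialPatterns
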