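import Pool.Agent.K9h98.QP.Fin

/-!
# The normalised spacings of the zeta zeros do not follow rigid or quasi-periodic patterns

Assume the Riemann hypothesis.

(1) A law for consecutive zeros: let `0 < t < 1` and let `S(n)` be the sum of `e(t γt_m)` over the `Q`
consecutive indices `m ≥ n`.  If `Q` is large, then `S(n + Q)` is not near `z S(n)`, whatever the
number `|z| = 1` is: the mean of `|S(n + Q) - z S(n)|²` over `n ≤ N` is at least
`((2 - √2) t - ε) Q`.

(2) A real sequence `a` is called `κ`-rigid if for arbitrarily large `q` the sums of `a` over windows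
of `q` consecutive indices are nearly constant: any `q` consecutive windows have sums which differ
from a number `μ` by at most `κ √q` in total.  If `s > 1`, `κ = (3/25) √s` and `a` is `κ`-rigid, then a
positive proportion of the normalised spacings `d_j` stays away from `a_j + s ℤ`.

(3) If `s > 1/2`, `κ = (3/25) √(s min(1, 2s - 1))` and `a` is `κ`-rigid, then a positive proportion of
the `d_j` stays away from `a_j + s ℤ` or from `{1/2, 1, 3/2, …}`.  So if the Alternative Hypothesis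
holds (even if only for almost all `j ≤ N` along a sequence of `N`), then the order of the
half-integers near the spacings is not rigid modulo `s`.  For `s = 1` this is the order in which
integers and half-odd integers follow each other.

(4) The quasi-periodic sequences `a_j = F_j(jα) + G_{j+1}((j+1)α) - G_j(jα)` are `κ`-rigid for every
`κ > 0`, whatever the real number `α` is: the functions `F_j` and `G_j` depend only on `j` modulo some
`K`, `F_j` has a Fourier series with `∑ |k|³ |c_k| < ∞` and `G_j` is `1`-periodic of locally bounded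
variation.

(5) So are the Sturmian words, with any two real numbers as letters.

Idea of the proof.  Let `θ = 1 / s`.  If, along a sequence of `N`, almost all spacings were near
`a_j + s ℤ`, then the phases `w_n = e(θ (a_0 + … + a_{n-1}))` would satisfy the law of mean squares:
the mean of `|w_n + … + w_{n+R-1}|² / R` tends to `v`, with `v = θ < 1` in (2) and
`v = min(θ, 2 - θ)` in (3) (results `ConsecutiveZerosLaw` and `MeanSquaresOnAH` of this folder, from
Montgomery's theorem).  Let `X`, `Y`, `Z` be the block sums of length `Q` at `n`, `n + Q`, `n + 2Q`.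
By the law for the lengths `Q`, `2Q` and `3Q` the means of `Re X Ȳ` and `Re X Z̄` are `o(Q)`, so that
the positivity of the mean of `|X ± i √2 Y - Z|²` bounds the mean of `Im X Ȳ` by `v Q / √2 + o(Q)`;
hence the mean of `|Y - z X|²` is at least `(2 - √2) v Q - o(Q)` (this argument is due to helper44).
For (4) with `K = 1` let `|α - p/q| ≤ 1/q²` with coprime `p` and `q`.  The increments
`G((n+q)α) - G(nα)` at `q` consecutive `n` are bounded in total in terms of the variation, and
`∑_{j<q} e(kjα) = O(|k|³/q)` if either `|α - r/k| ≥ c/k³` for all `r/k`, or `|α - p/q| < 1/q³`.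
-/

set_option autoImplicit false

open Filter

namespace Pool.Agent.Results.MP_f0209c_nt.QuasiPeriodicPatterns

/-- multiplicity of `s` as a zero of the Riemann zeta function (order of vanishing at `s`) -/
noncomputable def zmult (s : ℂ) : ℕ := analyticOrderNatAt riemannZeta s

/-- the number of nontrivial zeros of `ζ` with ordinate in `(0, t]`, with multiplicity -/
noncomputable def NZ (t : ℝ) : ℕ :=
  ∑ᶠ s ∈ {s : ℂ | riemannZeta s = 0 ∧ 0 < s.re ∧ s.re < 1 ∧ 0 < s.im ∧ s.im ≤ t}, zmult s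

/-- for `n ≥ 1`: the `n`-th positive ordinate `γ n` of a nontrivial zero of `ζ`, the ordinates being
listed in nondecreasing order and repeated according to multiplicity -/
noncomputable def γ (n : ℕ) : ℝ := sInf {t : ℝ | n ≤ NZ t}

/-- the normalised ordinates `γ_n log γ_n / 2π` -/
noncomputable def γt (n : ℕ) : ℝ := γ n * Real.log (γ n) / (2 * Real.pi)

/-- the normalised spacings -/
noncomputable def d (j : ℕ) : ℝ := γt (j + 1) - γt j

/-- `e(x) = exp (2 π i x)` -/
noncomputable def e (x : ℝ) : ℂ := Complex.exp ((2 * Real.pi * x : ℝ) * Complex.I)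

/-- a sequence is `κ`-rigid if there are arbitrarily large `q` and real numbers `μ` such that the sums
`a_m + … + a_{m+q-1}` satisfy, for all `n`,
`∑_{n ≤ m < n+q} |a_m + … + a_{m+q-1} - μ| ≤ κ √q` -/
def Rigid (κ : ℝ) (a : ℕ → ℝ) : Prop := ∀ Q : ℕ, ∃ q : ℕ, Q ≤ q ∧ ∃ μ : ℝ, ∀ n : ℕ,
  ∑ r ∈ Finset.range q, |∑ i ∈ Finset.range q, a (n + r + i) - μ| ≤ κ * Real.sqrt q

/-- On the Riemann hypothesis:

(1) for `0 < t < 1` and `ε > 0` there is `Q₀` such that for every `Q ≥ Q₀` and all large `N` (depending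
on `Q`), for all complex numbers `|z| = 1` simultaneously, the mean over `1 ≤ n ≤ N` of
`|S(n + Q) - z S(n)|²` is at least `((2 - √2) t - ε) Q`, where `S(n)` is the sum of `e(t γt_m)` over
`n ≤ m < n + Q`;

(2) for `s > 1` and every `(3/25)√s`-rigid sequence `a` there is `ε > 0` such that for all large `N`
at least `ε N` of the indices `1 ≤ j ≤ N` satisfy `|d_j - (a_j + s m)| ≥ ε` for all integers `m`;

(3) for `s > 1/2` and every `(3/25)√(s min(1, 2s - 1))`-rigid sequence `a` there is `ε > 0` such that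
for all large `N` at least `ε N` of the indices `1 ≤ j ≤ N` satisfy `|d_j - (a_j + s m)| ≥ ε` for all
integers `m` or `|d_j - k/2| ≥ ε` for all integers `k ≥ 1`;

(4) `a_j = F_j(jα) + G_{j+1}((j+1)α) - G_j(jα)` is `κ`-rigid for every real number `α` and every
`κ > 0`, if `F_j` and `G_j` depend only on `j` modulo `K`, `F_t` has a Fourier series
`∑ c_{t,k} e(kx)` with `∑ |k|³ |c_{t,k}| < ∞` and `G_t` is `1`-periodic of locally bounded variation;

(5) `a_j = u + (v - u)(⌊(j+1)α + ρ⌋ - ⌊jα + ρ⌋)` is `κ`-rigid, for all real `u`, `v`, `α`, `ρ` and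
`κ > 0`; for `0 ≤ α ≤ 1` this is a Sturmian (or periodic) word with the letters `u` and `v`. -/
theorem result (RH : RiemannHypothesis) :
    (∀ t ε : ℝ, 0 < t → t < 1 → 0 < ε → ∃ Q₀ : ℕ, ∀ Q : ℕ, Q₀ ≤ Q → ∀ᶠ N : ℕ in atTop,
      ∀ z : ℂ, ‖z‖ = 1 → ((2 - Real.sqrt 2) * t - ε) * (N * Q) ≤
        ∑ n ∈ Finset.Icc 1 N, ‖∑ i ∈ Finset.range Q, e (t * γt (n + Q + i)) -
          z * ∑ i ∈ Finset.range Q, e (t * γt (n + i))‖ ^ 2) ∧
    (∀ (s : ℝ) (a : ℕ → ℝ), 1 < s → Rigid (3 / 25 * Real.sqrt s) a →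
      ∃ ε : ℝ, 0 < ε ∧ ∀ᶠ N : ℕ in atTop,
        ε * N ≤ ({j : ℕ | 1 ≤ j ∧ j ≤ N ∧ ∀ m : ℤ, ε ≤ |d j - (a j + s * m)|}.ncard : ℝ)) ∧
    (∀ (s : ℝ) (a : ℕ → ℝ), 1 / 2 < s → Rigid (3 / 25 * Real.sqrt (s * min 1 (2 * s - 1))) a →
      ∃ ε : ℝ, 0 < ε ∧ ∀ᶠ N : ℕ in atTop,
        ε * N ≤ ({j : ℕ | 1 ≤ j ∧ j ≤ N ∧ ((∀ m : ℤ, ε ≤ |d j - (a j + s * m)|) ∨
          (∀ k : ℕ, 1 ≤ k → ε ≤ |d j - k / 2|))}.ncard : ℝ)) ∧
    (∀ (K : ℕ) (F G : ZMod K → ℝ → ℝ) (c : ZMod K → ℤ → ℂ) (α κ : ℝ), 1 ≤ K → 0 < κ →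
      (∀ t, Summable fun k : ℤ => |(k : ℝ)| ^ 3 * ‖c t k‖) →
      (∀ (t : ZMod K) (x : ℝ), HasSum (fun k : ℤ => c t k * e (k * x)) (F t x : ℂ)) →
      (∀ t, Function.Periodic (G t) 1) → (∀ t, LocallyBoundedVariationOn (G t) Set.univ) →
      Rigid κ fun j => F (j : ZMod K) (j * α) +
        (G ((j + 1 : ℕ) : ZMod K) ((j + 1 : ℕ) * α) - G (j : ZMod K) (j * α))) ∧
    (∀ u v α ρ κ : ℝ, 0 < κ →
      Rigid κ fun j => u + (v - u) * (⌊(j + 1) * α + ρ⌋ - ⌊j * α + ρ⌋)) := by
  refine ⟨fun t ε ht ht1 hε => Pool.Agent.K9h98.QP.zero RH ht ht1 hε,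
    fun s a hs ha => Pool.Agent.K9h98.QP.one RH hs ha,
    fun s a hs ha => Pool.Agent.K9h98.QP.two RH hs ha, ?_,
    fun u v α ρ κ hκ => Pool.Agent.K9h98.QP.sturm_rig u v α ρ hκ⟩
  intro K F G c α κ hK hκ hc hF hG hv
  choose Φ hΦ using fun t => Pool.Agent.K9h98.QP.dom_of_bv (hG t) (hv t)
  exact (Pool.Agent.K9h98.QP.quasi_rig hK (fun t => ⟨hc t, hF t⟩) hΦ α).rig hκ

end Pool.Agent.Results.MP_f0209c_nt.QuasiPeriodicPatterns
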